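import Pool.Agent.H92.FM1

open MeasureTheory Filter Pool.Agent.H92.FM
open scoped BoundedContinuousFunction

namespace Pool.Agent.Results.MP_148afe_an.NotContinuous

/-- In every dimension there are translation bounded Fourier transformable measures tending to
zero in norm whose transforms do not tend vaguely to zero. -/
theorem result (d : ℕ) (hd : 1 ≤ d) (K : Set (E d)) (hK : IsCompact K) : ∃ μ ν : ℕ → CM d,
    (∀ n, (μ n).nrm K < ⊤ ∧ IsFTsq (μ n) (ν n)) ∧
    Tendsto (fun n => (μ n).nrm K) atTop (nhds 0) ∧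
    ¬ ∀ g, Cc g → Tendsto (fun n => (ν n).ev g) atTop (nhds 0) := by
  let e : E d := EuclideanSpace.single ⟨0, hd⟩ 1
  have ne : ‖e‖ = 1 := by simp [e]
  choose a b ha hb hab using rs
  let h : ℕ → ℝ := fun n => 1 / 2 ^ n
  have h0 : ∀ n, 0 < h n := fun n => by positivity
  let ξ : ℕ → ℕ → E d := fun n j => (j : ℝ) • h n • e
  have nξ : ∀ n j, ‖ξ n j‖ = j * h n := fun n j => by
    simp only [ξ, norm_smul, ne, mul_one, Real.norm_natCast, Real.norm_of_nonneg (h0 n).le]
  let c : ℕ → E d → ℂ := fun n x => (2 / 3) ^ n * a n ⌊‖x‖ / h n⌋₊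
  have hc : ∀ n j, c n (ξ n j) = (2 / 3) ^ n * a n j := fun n j => by
    simp only [c, nξ, mul_div_cancel_right₀ _ (h0 n).ne', Nat.floor_natCast]
  let s : ℕ → Finset ℕ := fun n => Finset.range (2 ^ n)
  have bd : ∀ n x, ‖tp (s n) (ξ n) (c n) x‖ ≤ 2 * (20 / 21) ^ n := fun n x => by
    have e1 : tp (s n) (ξ n) (c n) x =
        (2 / 3) ^ n * ∑ j ∈ Finset.range (2 ^ n), a n j * ch (h n • e) x ^ j := by
      rw [Finset.mul_sum]
      exact Finset.sum_congr rfl fun j _ => by rw [hc, ch_smul, mul_assoc]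
    have e2 := hab n _ (norm_ch (h n • e) x)
    have e3 : (2 : ℝ) ^ n ≤ ((10 / 7) ^ n) ^ 2 := by
      rw [← pow_mul, mul_comm, pow_mul]; exact pow_le_pow_left₀ (by norm_num) (by norm_num) n
    have e4 : ‖∑ j ∈ Finset.range (2 ^ n), a n j * ch (h n • e) x ^ j‖ ≤ 2 * (10 / 7) ^ n :=
      (sq_le_sq₀ (norm_nonneg _) (by positivity)).mp (by
        nlinarith [sq_nonneg ‖∑ j ∈ Finset.range (2 ^ n), b n j * ch (h n • e) x ^ j‖,
          sq_nonneg ((10 / 7 : ℝ) ^ n)])
    rw [e1, norm_mul, norm_pow, show (20 / 21 : ℝ) = 2 / 3 * (10 / 7) by norm_num, mul_pow,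
      mul_left_comm, show ‖(2 / 3 : ℂ)‖ = 2 / 3 by simp]
    gcongr
  have nb := fun n => nrm_trig (s n) (ξ n) (c n) hK (bd n)
  refine ⟨fun n => trig (s n) (ξ n) (c n), fun n => disc (s n) (ξ n) (c n), fun n =>
    ⟨(nb n).trans_lt (ENNReal.mul_lt_top ENNReal.ofReal_lt_top hK.measure_lt_top),
      isFTsq _ _ _⟩, ?_, fun H => ?_⟩
  · refine tendsto_of_tendsto_of_tendsto_of_le_of_le tendsto_const_nhds ?_ (fun _ => zero_le) nb
    simpa using ENNReal.Tendsto.mul_const (ENNReal.tendsto_ofReal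
      ((tendsto_pow_atTop_nhds_zero_of_lt_one (r := (20 / 21 : ℝ)) (by norm_num)
        (by norm_num)).const_mul 2)) (Or.inr hK.measure_lt_top.ne)
  let β : ContDiffBump (0 : E d) := ⟨1, 2, one_pos, one_lt_two⟩
  let L : ℕ → (E d →ᵇ ℝ) →L[ℝ] ℝ := fun n => ∑ j ∈ s n,
    ((2 / 3 : ℝ) ^ n * a n j) • BoundedContinuousFunction.evalCLM ℝ (ξ n j)
  have hL : ∀ n u, L n u = ∑ j ∈ s n, (2 / 3 : ℝ) ^ n * a n j * u (ξ n j) := fun n u => by
    simp [L]
  obtain ⟨C, hC⟩ := banach_steinhaus (g := L) fun u => by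
    have := H (fun x => ((β x * u x : ℝ) : ℂ)) ⟨Complex.continuous_ofReal.comp
      (β.continuous.mul u.continuous), (β.hasCompactSupport.mul_right (f' := u)).comp_left
        (g := fun t : ℝ => (t : ℂ)) rfl⟩
    obtain ⟨C, hC⟩ := this.norm.bddAbove_range
    refine ⟨C, fun n => le_trans (le_of_eq ?_) (hC ⟨n, rfl⟩)⟩
    simp only [ev_disc]
    rw [← Complex.norm_real, hL]
    push_cast
    congr 1
    refine Finset.sum_congr rfl fun j hj => ?_
    have : (j : ℝ) ≤ 2 ^ n := by exact_mod_cast (Finset.mem_range.mp hj).le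
    rw [hc, β.one_of_mem_closedBall (mem_closedBall_zero_iff.mpr (by
      rw [nξ]; simp only [h]; rw [mul_one_div, div_le_iff₀ (by positivity)]; simpa [β] using this))]
    push_cast; ring
  obtain ⟨n, hn⟩ := ((tendsto_pow_atTop_atTop_of_one_lt (r := (4 / 3 : ℝ))
    (by norm_num)).eventually_gt_atTop C).exists
  let P := Lagrange.interpolate (s n) (fun j : ℕ => (j : ℝ) * h n) (a n)
  have hP : ∀ j ∈ s n, P.eval ‖ξ n j‖ = a n j := fun j hj => by
    rw [nξ]
    exact Lagrange.eval_interpolate_at_node (v := fun j : ℕ => (j : ℝ) * h n) _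
      (fun i _ j _ e => Nat.cast_injective (R := ℝ) (mul_right_cancel₀ (h0 n).ne' e)) hj
  have cl : ∀ t : ℝ, ‖max (-1) (min 1 t)‖ ≤ 1 := fun t =>
    abs_le.mpr ⟨le_max_left _ _, max_le (by norm_num) (min_le_left _ _)⟩
  let u : E d →ᵇ ℝ := BoundedContinuousFunction.ofNormedAddCommGroup
    (fun x => max (-1) (min 1 (P.eval ‖x‖))) (by fun_prop) 1 fun x => cl _
  have nu : ‖u‖ ≤ 1 := (BoundedContinuousFunction.norm_le zero_le_one).mpr fun x => cl _
  have := (L n).le_of_opNorm_le_of_le (hC n) nu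
  have v : L n u = (4 / 3) ^ n := by
    rw [hL, Finset.sum_congr rfl (g := fun _ => (2 / 3 : ℝ) ^ n) fun j hj => ?_]
    · simp only [s, Finset.sum_const, Finset.card_range, nsmul_eq_mul]
      push_cast; rw [← mul_pow]; norm_num
    have a1 := abs_le.mp (ha n j).le
    show _ * max (-1) (min 1 (P.eval ‖ξ n j‖)) = _
    rw [hP j hj, min_eq_right a1.2, max_eq_right a1.1, mul_assoc, ← abs_mul_abs_self, ha]
    simp
  rw [v, Real.norm_of_nonneg (by positivity)] at this
  linarith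

end Pool.Agent.Results.MP_148afe_an.NotContinuous
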